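import Mathlib.Analysis.SpecificLimits.Basic
import Mathlib.Algebra.MvPolynomial.Eval
import Mathlib.NumberTheory.Padics.PadicNumbers
import Mathlib.Algebra.Algebra.Operations
import Mathlib.Tactic

/-!
# Relations of real and `p`-adic multiple zeta values
-/

namespace Pool.Agent.TH133.MZ

/-- The admissible indices: non-empty tuples of positive integers whose first entry is at least
two. -/
def Adm : Type := {s : List ℕ // s ≠ [] ∧ (∀ a ∈ s, 1 ≤ a) ∧ ∀ a ∈ s.head?, 2 ≤ a}

/-- The weight of an index. -/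
def wt (s : Adm) : ℕ := s.1.sum

/-- The real multiple zeta value of an admissible index. -/
noncomputable def zetaReal (s : Adm) : ℝ :=
  ∑' n : {n : Fin s.1.length → ℕ // StrictAnti n ∧ ∀ i, 1 ≤ n i},
    ∏ i, ((n.1 i : ℝ) ^ (s.1.get i))⁻¹

/-- The functions `zetaReal` and `zp` satisfy the same product formulas: they come from
homomorphisms `Z`, `Zp` on a commutative `ℚ`-algebra `A`, spanned by `1` and elements `e s`,
`s` admissible, such that products `e s * e t` are combinations of the `e u` of weight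
`wt s + wt t` (the quasi-shuffle algebra). -/
structure IsStuffleModel {A K : Type*} [CommRing A] [Algebra ℚ A] [Field K] [Algebra ℚ K]
    (e : Adm → A) (Z : A →ₐ[ℚ] ℝ) (Zp : A →ₐ[ℚ] K) (zp : Adm → K) : Prop where
  span : ∀ x : A, ∃ c : ℚ, ∃ y ∈ Submodule.span ℚ (Set.range e), x = algebraMap ℚ A c + y
  mul_mem : ∀ s t : Adm, e s * e t ∈ Submodule.span ℚ (e '' {u | wt u = wt s + wt t})
  real_eq : ∀ s, Z (e s) = zetaReal s
  padic_eq : ∀ s, Zp (e s) = zp s

variable {A K : Type*} [CommRing A] [Algebra ℚ A] [Field K] [Algebra ℚ K] {e : Adm → A}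
  {Z : A →ₐ[ℚ] ℝ} {Zp : A →ₐ[ℚ] K} {zp : Adm → K}

/-- The span of the elements with weight in `[a, b]`. -/
def Win (e : Adm → A) (a b : ℕ) : Submodule ℚ A := Submodule.span ℚ (e '' {u | a ≤ wt u ∧ wt u ≤ b})

lemma mul_Win (h : IsStuffleModel e Z Zp zp) {t : Adm} {a b : ℕ} {x : A} (hx : x ∈ Win e a b) :
    x * e t ∈ Win e (a + wt t) (b + wt t) := by
  unfold Win at hx
  induction hx using Submodule.span_induction with
  | mem x hx =>
    obtain ⟨s, hs, rfl⟩ := hx
    refine Submodule.span_mono (Set.image_mono ?_) (h.mul_mem s t)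
    intro u hu
    change a ≤ wt s ∧ wt s ≤ b at hs
    change wt u = wt s + wt t at hu
    change a + wt t ≤ wt u ∧ wt u ≤ b + wt t
    omega
  | zero =>
    rw [zero_mul]
    exact Submodule.zero_mem _
  | add x y _ _ hx hy =>
    rw [add_mul]
    exact Submodule.add_mem _ hx hy
  | smul c x _ hx =>
    rw [smul_mul_assoc]
    exact Submodule.smul_mem _ c hx

lemma exists_Win {y : A} (hy : y ∈ Submodule.span ℚ (Set.range e)) : ∃ b, y ∈ Win e 0 b := by
  obtain ⟨g, rfl⟩ := (Finsupp.mem_span_range_iff_exists_finsupp).1 hy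
  refine ⟨g.support.sup wt, ?_⟩
  apply Submodule.sum_mem
  intro s hs
  apply Submodule.smul_mem
  exact Submodule.subset_span ⟨s, ⟨Nat.zero_le _, Finset.le_sup hs⟩, rfl⟩

lemma mul_pow_Win (h : IsStuffleModel e Z Zp zp) (t : Adm) (x : A) :
    ∃ b : ℕ, ∀ j : ℕ, x * e t ^ (j + 1) ∈ Win e ((j + 1) * wt t) ((j + 1) * wt t + b) := by
  obtain ⟨c, y, hy, rfl⟩ := h.span x
  obtain ⟨b, hb⟩ := exists_Win hy
  refine ⟨b, fun j => ?_⟩
  induction j with
  | zero =>
    rw [zero_add, pow_one, one_mul, add_mul, ← Algebra.smul_def]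
    apply Submodule.add_mem
    · apply Submodule.smul_mem
      exact Submodule.subset_span ⟨t, ⟨le_refl (wt t), Nat.le_add_right _ _⟩, rfl⟩
    · have h2 := mul_Win h (t := t) hb
      rwa [zero_add, Nat.add_comm b] at h2
  | succ j ih =>
    have h1 := mul_Win h (t := t) ih
    rw [pow_succ, ← mul_assoc]
    convert h1 using 2
    · ring
    · ring

lemma wt_pos (t : Adm) : 1 ≤ wt t := by
  obtain ⟨s, hs, h1, -⟩ := t
  cases s with
  | nil => exact absurd rfl hs
  | cons a s =>
    have h2 := h1 a (by simp)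
    change 1 ≤ (a :: s).sum
    rw [List.sum_cons]
    omega

/-- An element of the span is the combination given by a finitely supported function. -/
lemma mem_Win {a b : ℕ} {x : A} (hx : x ∈ Win e a b) :
    ∃ g : Adm →₀ ℚ, (∀ s ∈ g.support, a ≤ wt s ∧ wt s ≤ b) ∧ x = g.sum (fun s c => c • e s) := by
  unfold Win at hx
  rw [Finsupp.mem_span_image_iff_linearCombination] at hx
  obtain ⟨g, hg, rfl⟩ := hx
  exact ⟨g, fun s hs => (Finsupp.mem_supported ℚ g).1 hg hs, rfl⟩

/-- Each linear relation with rational coefficients between the real multiple zeta values with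
weights in `[a, b]` also holds for the numbers `zp s`. -/
def RelationsTransfer (zp : Adm → K) (a b : ℕ) : Prop :=
  ∀ g : Adm →₀ ℚ, (∀ s ∈ g.support, a ≤ wt s ∧ wt s ≤ b) →
    g.sum (fun s c => c • zetaReal s) = 0 → g.sum (fun s c => c • zp s) = 0

theorem padic_tfae (h : IsStuffleModel e Z Zp zp) (hne : ∃ t, zp t ≠ 0) :
    List.TFAE [
      ∀ f : MvPolynomial Adm ℚ, MvPolynomial.aeval zetaReal f = 0 → MvPolynomial.aeval zp f = 0,
      ∃ N : ℕ, ∀ b : ℕ, RelationsTransfer zp N b,
      ∀ l : ℕ, ∃ N₀ : ℕ, ∀ N : ℕ, N₀ ≤ N → RelationsTransfer zp N (N + l)] := by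
  tfae_have 1 → 2 := by
    intro h1
    refine ⟨0, fun b g _ hg => ?_⟩
    have h2 := h1 (g.sum (fun s c => c • MvPolynomial.X s)) (by
      rw [map_finsuppSum]
      simp only [map_smul, MvPolynomial.aeval_X]
      exact hg)
    rw [map_finsuppSum] at h2
    simpa only [map_smul, MvPolynomial.aeval_X] using h2
  tfae_have 2 → 3 := by
    rintro ⟨N₀, h1⟩ l
    refine ⟨N₀, fun N hN g hg => h1 (N + l) g (fun s hs => ?_)⟩
    exact ⟨hN.trans (hg s hs).1, (hg s hs).2⟩
  tfae_have 3 → 1 := by
    intro h1 f hf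
    obtain ⟨t, ht⟩ := hne
    set x : A := MvPolynomial.aeval e f with hx
    have e1 : Z x = 0 := by
      rw [hx, ← hf]
      have : (Z.comp (MvPolynomial.aeval e)) = MvPolynomial.aeval zetaReal := by
        apply MvPolynomial.algHom_ext
        intro s
        simp [h.real_eq]
      exact congrArg (fun φ : MvPolynomial Adm ℚ →ₐ[ℚ] ℝ => φ f) this
    have e2 : Zp x = MvPolynomial.aeval zp f := by
      rw [hx]
      have : (Zp.comp (MvPolynomial.aeval e)) = MvPolynomial.aeval zp := by
        apply MvPolynomial.algHom_ext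
        intro s
        simp [h.padic_eq]
      exact congrArg (fun φ : MvPolynomial Adm ℚ →ₐ[ℚ] K => φ f) this
    obtain ⟨b, hb⟩ := mul_pow_Win h t x
    obtain ⟨N₀, hN₀⟩ := h1 b
    have h4 : N₀ ≤ (N₀ + 1) * wt t := by
      have h6 := wt_pos t
      nlinarith
    obtain ⟨g, hg, hg'⟩ := mem_Win (hb N₀)
    have e3 : Z (x * e t ^ (N₀ + 1)) = g.sum (fun s c => c • zetaReal s) := by
      rw [hg', map_finsuppSum]
      simp only [map_smul, h.real_eq]
    have e4 : Zp (x * e t ^ (N₀ + 1)) = g.sum (fun s c => c • zp s) := by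
      rw [hg', map_finsuppSum]
      simp only [map_smul, h.padic_eq]
    have h5 := hN₀ _ h4 g hg (by rw [← e3, map_mul, e1, zero_mul])
    rw [← e4, map_mul, map_pow, h.padic_eq, e2] at h5
    exact (mul_eq_zero.1 h5).resolve_right (pow_ne_zero _ ht)
  tfae_finish

end Pool.Agent.TH133.MZ
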