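import Mathlib.Analysis.SpecificLimits.Basic
import Mathlib.LinearAlgebra.FiniteDimensional.Lemmas
import Mathlib.LinearAlgebra.Dimension.Finrank
import Mathlib.Topology.Algebra.InfiniteSum.Real
import Mathlib.Tactic

/-!
# Multiple zeta values and models of the algebra of motivic multiple zeta values
-/

namespace Pool.Agent.TH133.MZ

open Module

/-- The real numbers `ζ(s)` of the admissible indices `s` of weight `n`, including the value `1`
of the empty index for `n = 0`. -/
def mzvs (n : ℕ) : Set ℝ :=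
  {x : ℝ | ∃ k : ℕ, ∃ s : Fin k → ℕ,
    (∀ i, 1 ≤ s i) ∧ (∀ h : 0 < k, 2 ≤ s ⟨0, h⟩) ∧ (∑ i, s i) = n ∧
    x = ∑' m : {m : Fin k → ℕ // StrictAnti m ∧ ∀ i, 0 < m i},
          ∏ i, (((m.1 i : ℕ) : ℝ) ^ (s i))⁻¹}

/-- The span `𝒵_n` of the multiple zeta values of weight `n`. -/
noncomputable def Zw (n : ℕ) : Submodule ℚ ℝ := Submodule.span ℚ (mzvs n)

/-- Zagier's sequence `d_n`. -/
structure IsZagierSeq (d : ℕ → ℕ) : Prop where
  zero : d 0 = 1
  one : d 1 = 0
  two : d 2 = 1
  step : ∀ n : ℕ, 3 ≤ n → d n = d (n - 2) + d (n - 3)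

/-- The commutative `ℚ`-algebra `H` with the subspaces `gr n` and the period homomorphism `per`
has the properties of the algebra of motivic multiple zeta values (Goncharov, Deligne-Goncharov,
Brown): `H` has no zero divisors, `gr n` has dimension `d n`, products of elements of `gr m` and
`gr n` lie in `gr (m + n)`, and `per` maps `gr n` onto `𝒵_n`. -/
structure IsMotivicModel {H : Type*} [CommRing H] [Algebra ℚ H] (gr : ℕ → Submodule ℚ H)
    (per : H →ₐ[ℚ] ℝ) (d : ℕ → ℕ) : Prop where
  domain : IsDomain H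
  finite : ∀ n, Module.Finite ℚ (gr n)
  finrank : ∀ n, finrank ℚ (gr n) = d n
  mul_mem : ∀ (m n : ℕ) (a b : H), a ∈ gr m → b ∈ gr n → a * b ∈ gr (m + n)
  map_gr : ∀ n, (gr n).map per.toLinearMap = Zw n

end Pool.Agent.TH133.MZ
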