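import Pool.Agent.TH133.MZ.Zagier
import Mathlib.RingTheory.PowerSeries.Basic
import Mathlib.Algebra.Polynomial.Eval.Defs

/-!
# The Broadhurst-Kreimer series and depth filtrations
-/

open Module

namespace Pool.Agent.TH133.MZ

/-- The real numbers `ζ(s)` of the admissible indices `s` of weight `k` and depth at most `r`. -/
def mzvsDepth (k r : ℕ) : Set ℝ :=
  {x : ℝ | ∃ m : ℕ, m ≤ r ∧ ∃ s : Fin m → ℕ,
    (∀ i, 1 ≤ s i) ∧ (∀ h : 0 < m, 2 ≤ s ⟨0, h⟩) ∧ (∑ i, s i) = k ∧
    x = ∑' n : {n : Fin m → ℕ // StrictAnti n ∧ ∀ i, 0 < n i},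
          ∏ i, (((n.1 i : ℕ) : ℝ) ^ (s i))⁻¹}

/-- The space `Fil^D_r(𝒵_k)`. -/
noncomputable def Fil (k r : ℕ) : Submodule ℚ ℝ := Submodule.span ℚ (mzvsDepth k r)

/-- The dimension of `V_r / V_{r-1}` for an increasing sequence of subspaces, `V_{-1} = 0`. -/
noncomputable def grDim {M : Type*} [AddCommGroup M] [Module ℚ M] (V : ℕ → Submodule ℚ M) :
    ℕ → ℤ
  | 0 => finrank ℚ (V 0)
  | r + 1 => (finrank ℚ (V (r + 1)) : ℤ) - finrank ℚ (V r)

/-- `C` is the power series of Broadhurst and Kreimer, as a power series in `X` whose coefficients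
are polynomials in `Y`. -/
def IsBKSeries (C : PowerSeries (Polynomial ℤ)) : Prop :=
  ∃ E O S : PowerSeries (Polynomial ℤ),
    E * (1 - PowerSeries.X ^ 2) = PowerSeries.X ^ 2 ∧
    O * (1 - PowerSeries.X ^ 2) = PowerSeries.X ^ 3 ∧
    S * ((1 - PowerSeries.X ^ 4) * (1 - PowerSeries.X ^ 6)) = PowerSeries.X ^ 12 ∧
    C * (1 - O * PowerSeries.C Polynomial.X + S * PowerSeries.C Polynomial.X ^ 2 -
      S * PowerSeries.C Polynomial.X ^ 4) = 1 + E * PowerSeries.C Polynomial.X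

/-- The coefficient of `X ^ k Y ^ r`. -/
noncomputable def bk (C : PowerSeries (Polynomial ℤ)) (k r : ℕ) : ℤ :=
  (PowerSeries.coeff k C).coeff r

/-- The commutative `ℚ`-algebra `H` with the subspaces `F k r` (motivic multiple zeta values of
weight `k` and depth at most `r`) and the period homomorphism `per` has the properties of the
algebra of motivic multiple zeta values (Goncharov, Deligne-Goncharov, Brown). -/
structure IsDepthModel {H : Type*} [CommRing H] [Algebra ℚ H] (F : ℕ → ℕ → Submodule ℚ H)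
    (per : H →ₐ[ℚ] ℝ) (d : ℕ → ℕ) : Prop where
  domain : IsDomain H
  finite : ∀ k, Module.Finite ℚ (F k k)
  finrank : ∀ k, finrank ℚ (F k k) = d k
  mono : ∀ k r, F k r ≤ F k (r + 1)
  le_top : ∀ k r, F k r ≤ F k k
  mul_mem : ∀ (k l : ℕ) (a b : H), a ∈ F k k → b ∈ F l l → a * b ∈ F (k + l) (k + l)
  map_F : ∀ k r, (F k r).map per.toLinearMap = Fil k r

lemma mzvsDepth_self (k : ℕ) : mzvsDepth k k = mzvs k := by
  ext x
  constructor
  · rintro ⟨m, -, s, h1, h2, h3, h4⟩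
    exact ⟨m, s, h1, h2, h3, h4⟩
  · rintro ⟨m, s, h1, h2, h3, h4⟩
    refine ⟨m, ?_, s, h1, h2, h3, h4⟩
    calc m = ∑ _i : Fin m, 1 := by simp
      _ ≤ ∑ i, s i := Finset.sum_le_sum (fun i _ => h1 i)
      _ = k := h3

lemma Fil_self (k : ℕ) : Fil k k = Zw k := by
  rw [Fil, Zw, mzvsDepth_self]

lemma mzvsDepth_mono {k r r' : ℕ} (h : r ≤ r') : mzvsDepth k r ⊆ mzvsDepth k r' := by
  rintro x ⟨m, hm, hx⟩
  exact ⟨m, hm.trans h, hx⟩

section Series

open PowerSeries

lemma zagier_series {d : ℕ → ℕ} (hd : IsZagierSeq d) :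
    (PowerSeries.mk (fun n => (d n : ℤ))) * (1 - X ^ 2 - X ^ 3) = 1 := by
  ext n
  rw [mul_sub, mul_sub, mul_one, map_sub, map_sub, coeff_mul_X_pow', coeff_mul_X_pow', coeff_mk,
    coeff_one]
  rcases Nat.lt_or_ge n 3 with h | h
  · interval_cases n
    · simp [hd.zero]
    · simp [hd.one]
    · simp [hd.two, hd.zero, coeff_mk]
  · rw [if_pos (by omega), if_pos h, if_neg (by omega), coeff_mk, coeff_mk, hd.step n h]
    push_cast
    ring

lemma bk_eval {C : PowerSeries (Polynomial ℤ)} (hC : IsBKSeries C) {d : ℕ → ℕ}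
    (hd : IsZagierSeq d) (k : ℕ) : (coeff k C).eval 1 = d k := by
  obtain ⟨E, O, S, hE, hO, -, hC⟩ := hC
  set φ : PowerSeries (Polynomial ℤ) →+* PowerSeries ℤ :=
    PowerSeries.map (Polynomial.evalRingHom 1) with hφ
  have hX : φ X = X := PowerSeries.map_X _
  have hY : φ (PowerSeries.C Polynomial.X) = 1 := by
    rw [hφ, PowerSeries.map_C]
    simp
  have e1 := congrArg φ hE
  have e2 := congrArg φ hO
  have e3 := congrArg φ hC
  simp only [map_mul, map_sub, map_add, map_one, map_pow, hX, hY, mul_one, one_pow,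
    add_sub_cancel_right] at e1 e2 e3
  have e4 : φ C * (1 - X ^ 2 - X ^ 3) = 1 := by
    have : φ C * (1 - X ^ 2 - X ^ 3) = φ C * (1 - φ O) * (1 - X ^ 2) := by
      rw [← e2]
      ring
    rw [this, e3, add_mul, e1]
    ring
  have e5 : φ C = PowerSeries.mk (fun n => (d n : ℤ)) := by
    have h1 := zagier_series hd
    calc φ C = φ C * ((PowerSeries.mk (fun n => (d n : ℤ))) * (1 - X ^ 2 - X ^ 3)) := by
          rw [h1, mul_one]
      _ = (φ C * (1 - X ^ 2 - X ^ 3)) * PowerSeries.mk (fun n => (d n : ℤ)) := by ring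
      _ = _ := by rw [e4, one_mul]
  have e6 := congrArg (coeff k) e5
  rw [hφ, PowerSeries.coeff_map, coeff_mk] at e6
  simpa using e6

end Series

end Pool.Agent.TH133.MZ
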