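import Pool.Agent.TH133.MZ.Depth
import Mathlib.Algebra.Polynomial.Eval.Degree

/-!
# The Broadhurst-Kreimer conjecture: the motivic and the transcendental part
-/

open Module

namespace Pool.Agent.TH133.MZ

lemma sum_grDim {M : Type*} [AddCommGroup M] [Module ℚ M] (V : ℕ → Submodule ℚ M) (n : ℕ) :
    ∑ r ∈ Finset.range (n + 1), grDim V r = finrank ℚ (V n) := by
  induction n with
  | zero => simp [grDim]
  | succ n ih =>
    rw [Finset.sum_range_succ, ih, grDim]
    ring

lemma grDim_zero_of_gt {M : Type*} [AddCommGroup M] [Module ℚ M] {V : ℕ → Submodule ℚ M} {n : ℕ}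
    (hV : ∀ r, n ≤ r → V r = V n) {r : ℕ} (hr : n < r) : grDim V r = 0 := by
  obtain ⟨s, rfl⟩ : ∃ s, r = s + 1 := ⟨r - 1, by omega⟩
  rw [grDim, hV s (by omega), hV (s + 1) (by omega), sub_self]

lemma Fil_eq {k r : ℕ} (h : k ≤ r) : Fil k r = Fil k k := by
  apply le_antisymm
  · rw [Fil_self]
    apply Submodule.span_mono
    rintro x ⟨m, -, s, h1, h2, h3, h4⟩
    exact ⟨m, s, h1, h2, h3, h4⟩
  · exact Submodule.span_mono (mzvsDepth_mono h)

/-- The sum of the coefficients is the dimension of the last step. -/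
lemma sum_bk {C : PowerSeries (Polynomial ℤ)} (hC : IsBKSeries C) {d : ℕ → ℕ}
    (hd : IsZagierSeq d) {k : ℕ} {M : Type*} [AddCommGroup M] [Module ℚ M]
    {V : ℕ → Submodule ℚ M} (hV : ∀ r, k ≤ r → V r = V k) (h : ∀ r, grDim V r = bk C k r) :
    finrank ℚ (V k) = d k := by
  have h1 : ((PowerSeries.coeff k C).natDegree) < k + 1 := by
    rw [Nat.lt_succ_iff, Polynomial.natDegree_le_iff_coeff_eq_zero]
    intro N hN
    change bk C k N = 0
    rw [← h N, grDim_zero_of_gt hV hN]
  have h2 : (PowerSeries.coeff k C).eval 1 = ∑ r ∈ Finset.range (k + 1), bk C k r := by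
    rw [Polynomial.eval_eq_sum_range' h1]
    apply Finset.sum_congr rfl
    intro r _
    rw [one_pow, mul_one, bk]
  rw [bk_eval hC hd, Finset.sum_congr rfl (fun r _ => (h r).symm), sum_grDim] at h2
  exact_mod_cast h2.symm

variable {H : Type*} [CommRing H] [Algebra ℚ H] {F : ℕ → ℕ → Submodule ℚ H} {per : H →ₐ[ℚ] ℝ}
  {d : ℕ → ℕ}

lemma IsDepthModel.toMotivic (h : IsDepthModel F per d) :
    IsMotivicModel (fun k => F k k) per d where
  domain := h.domain
  finite := h.finite
  finrank := h.finrank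
  mul_mem := h.mul_mem
  map_gr := fun k => by rw [h.map_F, Fil_self]

lemma IsDepthModel.F_eq (h : IsDepthModel F per d) {k r : ℕ} (hr : k ≤ r) : F k r = F k k := by
  apply le_antisymm (h.le_top k r)
  induction r, hr using Nat.le_induction with
  | base => exact le_rfl
  | succ r _ ih => exact ih.trans (h.mono k r)

/-- If the image of `V` has the dimension of `V`, then this is also true for the subspaces. -/
lemma finrank_map_eq [IsDomain H] {V W : Submodule ℚ H} [FiniteDimensional ℚ V] (hW : W ≤ V)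
    (h : finrank ℚ (V.map per.toLinearMap) = finrank ℚ V) :
    finrank ℚ (W.map per.toLinearMap) = finrank ℚ W := by
  by_contra hc
  have : FiniteDimensional ℚ W := Submodule.finiteDimensional_of_le hW
  obtain ⟨r, hr, hr0, hper⟩ := exists_relation per hc
  have h1 := defect per (M := Submodule.span ℚ {(1 : H)}) (V := V) hr0 hper (fun y hy => by
    obtain ⟨c, rfl⟩ := Submodule.mem_span_singleton.1 hy
    rw [mul_smul_comm, mul_one]
    exact V.smul_mem c (hW hr))
  rw [h, finrank_span_singleton one_ne_zero] at h1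
  omega

/-- If `𝒵_k` has the expected dimension then the real and the motivic depth-graded pieces have the
same dimensions. -/
lemma IsDepthModel.grDim_eq (h : IsDepthModel F per d) {k : ℕ}
    (hk : Module.finrank ℚ (Zw k) = d k) (r : ℕ) : grDim (Fil k) r = grDim (F k) r := by
  have := h.domain
  have := h.finite k
  have h1 : ∀ s, Module.finrank ℚ (Fil k s) = Module.finrank ℚ (F k s) := fun s => by
    rw [← h.map_F k s]
    apply finrank_map_eq (h.le_top k s)
    rw [h.map_F, Fil_self, h.finrank, hk]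
  cases r with
  | zero => simp only [grDim, h1]
  | succ r => simp only [grDim, h1]

theorem bk_tfae (hd : IsZagierSeq d) (h : IsDepthModel F per d)
    {C : PowerSeries (Polynomial ℤ)} (hC : IsBKSeries C) :
    List.TFAE [
      ∀ k r : ℕ, grDim (Fil k) r = bk C k r,
      (∀ k r : ℕ, grDim (F k) r = bk C k r) ∧ ∀ N : ℕ, ∃ k : ℕ, N ≤ k ∧
        ∀ r : ℕ, grDim (Fil k) r = bk C k r,
      (∀ k r : ℕ, grDim (F k) r = bk C k r) ∧ ∀ ε : ℝ, 0 < ε → ∀ N : ℕ, ∃ k : ℕ, N ≤ k ∧
        (1 - ε) * d k ≤ finrank ℚ (Fil k k)] := by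
  have hz := zagier_tfae hd h.toMotivic
  tfae_have 1 → 2 := by
    intro h1
    have h2 : ∀ k, finrank ℚ (Zw k) = d k := fun k => by
      rw [← Fil_self]
      exact sum_bk hC hd (fun r hr => Fil_eq hr) (h1 k)
    refine ⟨fun k r => ?_, fun N => ⟨N, le_rfl, h1 N⟩⟩
    rw [← h.grDim_eq (h2 k), h1]
  tfae_have 2 → 3 := by
    rintro ⟨h1, h2⟩
    refine ⟨h1, fun ε hε N => ?_⟩
    obtain ⟨k, hk, hk'⟩ := h2 N
    refine ⟨k, hk, ?_⟩
    rw [sum_bk hC hd (fun r hr => Fil_eq hr) hk']
    have : (0 : ℝ) ≤ d k := Nat.cast_nonneg _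
    nlinarith
  tfae_have 3 → 1 := by
    rintro ⟨h1, h2⟩ k r
    have h3 := (hz.out 2 0).1 (fun ε hε N => by
      obtain ⟨k, hk, hk'⟩ := h2 ε hε N
      rw [Fil_self] at hk'
      exact ⟨k, hk, hk'⟩)
    rw [h.grDim_eq (h3 k), h1]
  tfae_finish

end Pool.Agent.TH133.MZ
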