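import Mathlib.Analysis.SpecificLimits.Basic
import Mathlib.LinearAlgebra.FiniteDimensional.Lemmas
import Mathlib.LinearAlgebra.Dimension.RankNullity
import Mathlib.Tactic

/-!
# Gaps for quotients of graded domains
-/

open Module

namespace Pool.Agent.TH133.MZ

section Defect

variable {H : Type*} [CommRing H] [IsDomain H] [Algebra ℚ H] {L : Type*} [CommRing L] [Algebra ℚ L]

/-- If a relation `r` lies in `U`, and `r * M` is in `V`, then the dimension of the image of `V` is
at most that of `V` minus that of `M`. -/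
theorem defect (per : H →ₐ[ℚ] L) {M V : Submodule ℚ H} [FiniteDimensional ℚ V] {r : H}
    (hr : r ≠ 0) (hr0 : per r = 0) (hV : ∀ y ∈ M, r * y ∈ V) :
    finrank ℚ (V.map per.toLinearMap) + finrank ℚ M ≤ finrank ℚ V := by
  set f : V →ₗ[ℚ] L := per.toLinearMap.domRestrict V with hf
  have h1 := LinearMap.finrank_range_add_finrank_ker f
  have h2 : LinearMap.range f = V.map per.toLinearMap := LinearMap.range_domRestrict _ _
  rw [h2] at h1
  have h3 : finrank ℚ M ≤ finrank ℚ (LinearMap.ker f) := by
    let g : M →ₗ[ℚ] LinearMap.ker f :=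
      { toFun := fun y => ⟨⟨r * y, hV y.1 y.2⟩, by
          rw [LinearMap.mem_ker, hf, LinearMap.domRestrict_apply]
          change per (r * y) = 0
          rw [map_mul, hr0, zero_mul]⟩
        map_add' := fun x y => by
          apply Subtype.ext; apply Subtype.ext
          change r * ((x : H) + y) = r * x + r * y
          ring
        map_smul' := fun c x => by
          apply Subtype.ext; apply Subtype.ext
          change r * (c • (x : H)) = c • (r * x)
          rw [mul_smul_comm] }
    apply LinearMap.finrank_le_finrank_of_injective (f := g)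
    intro x y hxy
    have h4 : r * (x : H) = r * y := congrArg (fun z : LinearMap.ker f => ((z : V) : H)) hxy
    exact Subtype.ext (mul_left_cancel₀ hr h4)
  omega

omit [IsDomain H] in
/-- If the image of `V` has smaller dimension than `V` then there is a relation in `V`. -/
theorem exists_relation (per : H →ₐ[ℚ] L) {V : Submodule ℚ H} [FiniteDimensional ℚ V]
    (h : finrank ℚ (V.map per.toLinearMap) ≠ finrank ℚ V) : ∃ r ∈ V, r ≠ 0 ∧ per r = 0 := by
  set f : V →ₗ[ℚ] L := per.toLinearMap.domRestrict V with hf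
  have h1 := LinearMap.finrank_range_add_finrank_ker f
  have h2 : LinearMap.range f = V.map per.toLinearMap := LinearMap.range_domRestrict _ _
  rw [h2] at h1
  have h3 : LinearMap.ker f ≠ ⊥ := by
    intro h0
    rw [h0, finrank_bot] at h1
    exact h (by omega)
  obtain ⟨x, hx, hx0⟩ := (Submodule.ne_bot_iff _).1 h3
  exact ⟨x, x.2, fun h0 => hx0 (Subtype.ext h0), hx⟩

end Defect

section Seq

variable {d : ℕ → ℕ} (h0 : d 0 = 1) (h1 : d 1 = 0) (h2 : d 2 = 1)
  (hrec : ∀ n : ℕ, 3 ≤ n → d n = d (n - 2) + d (n - 3))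

include h0 h1 h2 hrec

/-- The sequence is monotone from `n = 1` on. -/
lemma d_mono (n : ℕ) (hn : 1 ≤ n) : d n ≤ d (n + 1) := by
  have h3 : d 3 = 1 := by rw [hrec 3 le_rfl, h1, h0]
  induction n using Nat.strong_induction_on with
  | _ n ih =>
    rcases Nat.lt_or_ge n 4 with h | h
    · have h4 : d 4 = d 2 + d 1 := hrec 4 (by norm_num)
      interval_cases n
      · change d 1 ≤ d 2
        omega
      · change d 2 ≤ d 3
        omega
      · change d 3 ≤ d 4
        omega
    · have e1 := hrec n (by omega)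
      have e2 := hrec (n + 1) (by omega)
      have e3 := ih (n - 2) (by omega) (by omega)
      have e4 := ih (n - 3) (by omega) (by omega)
      have e5 : n + 1 - 2 = n - 2 + 1 := by omega
      have e6 : n + 1 - 3 = n - 3 + 1 := by omega
      rw [e1, e2, e5, e6]
      omega

lemma d_mono' {m n : ℕ} (hm : 1 ≤ m) (hmn : m ≤ n) : d m ≤ d n := by
  induction n, hmn using Nat.le_induction with
  | base => exact le_rfl
  | succ n hn ih => exact ih.trans (d_mono h0 h1 h2 hrec n (by omega))

lemma d_pos {n : ℕ} (hn : 2 ≤ n) : 1 ≤ d n := by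
  have := d_mono' h0 h1 h2 hrec (by norm_num : 1 ≤ 2) hn
  omega

lemma d_succ_le (n : ℕ) (hn : 4 ≤ n) : d (n + 1) ≤ 2 * d n := by
  have e1 := hrec (n + 1) (by omega)
  have e2 : d (n + 1 - 2) ≤ d n := d_mono' h0 h1 h2 hrec (by omega) (by omega)
  have e3 : d (n + 1 - 3) ≤ d n := d_mono' h0 h1 h2 hrec (by omega) (by omega)
  omega

lemma d_add_le (n w : ℕ) (hn : 4 ≤ n) : d (n + w) ≤ 2 ^ w * d n := by
  induction w with
  | zero => simp
  | succ w ih =>
    have e1 := d_succ_le h0 h1 h2 hrec (n + w) (by omega)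
    rw [pow_succ]
    calc d (n + (w + 1)) ≤ 2 * d (n + w) := e1
      _ ≤ 2 * (2 ^ w * d n) := Nat.mul_le_mul_left _ ih
      _ = 2 ^ w * 2 * d n := by ring

end Seq

end Pool.Agent.TH133.MZ
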