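import Pool.Agent.TH133.MZ.Words

/-!
# Hoffman's conjecture and the number of entries equal to three
-/

open Module

namespace Pool.Agent.TH133.MZ

/-- The value `ζ(k_1, …, k_n)` of the index `s = (k_1, …, k_n)`, the sum over
`0 < m_1 < … < m_n` of the products of the `m_i ^ (-k_i)`. -/
noncomputable def zetaInc (s : List ℕ) : ℝ :=
  ∑' m : {m : Fin s.length → ℕ // StrictMono m ∧ ∀ i, 0 < m i},
    ∏ i, ((m.1 i : ℝ) ^ (s.get i))⁻¹

/-- The set `C_{k,d}` of the compositions of `k` with all entries in `{2, 3}` and at most `d`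
entries equal to `3`. -/
def Ckd (k d : ℕ) : Set (List ℕ) := {s | IsHoffman s ∧ s.sum = k ∧ s.count 3 ≤ d}

/-- The family `H_{k,d}` is linearly independent over the rational numbers. -/
def IndepHoffman (k d : ℕ) : Prop := LinearIndependent ℚ (fun s : Ckd k d => zetaInc s)

/-- The elements `v s` of the commutative `ℚ`-algebra `H` have the properties of the motivic
multiple zeta values of the words `s` in the letters `2`, `3` (Goncharov, Brown): `H` has no zero
divisors, the `v s` are linearly independent, the product of two of them is a combination of such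
elements, of the weight and with at most the number of entries `3` of the two factors together,
and the period homomorphism `per` maps `v s` to the real number `ζ(s)`. -/
structure IsLevelModel {H : Type*} [CommRing H] [Algebra ℚ H] (v : List ℕ → H) (per : H →ₐ[ℚ] ℝ) :
    Prop where
  domain : IsDomain H
  indep : LinearIndependent ℚ (fun s : {s : List ℕ // IsHoffman s} => v s)
  mul_mem : ∀ (k l d e : ℕ) (s t : List ℕ), s ∈ Ckd k d → t ∈ Ckd l e →
    v s * v t ∈ Submodule.span ℚ (v '' Ckd (k + l) (d + e))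
  per_eq : ∀ s : List ℕ, IsHoffman s → per (v s) = zetaInc s

lemma finite_Ckd (k d : ℕ) : (Ckd k d).Finite :=
  (finite_hoffman_sum k).subset (fun _ hs => ⟨hs.1, hs.2.1.le⟩)

lemma count_le_of_hoffman : ∀ {s : List ℕ}, s.count 3 ≤ s.sum
  | [] => by simp
  | a :: s => by
    have h1 := count_le_of_hoffman (s := s)
    rw [List.count_cons, List.sum_cons]
    split
    · rename_i h
      have h2 : a = 3 := by simpa using h
      omega
    · omega

lemma Ckd_subset {k d : ℕ} : Ckd k d ⊆ Ckd k k := fun s hs =>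
  ⟨hs.1, hs.2.1, by have := count_le_of_hoffman (s := s); have := hs.2.1; omega⟩

/-- There are compositions in `C_{k,1}` except for `k = 1`. -/
lemma nonempty_Ckd_one {k d : ℕ} (hk : 2 ≤ k) (hd : 1 ≤ d) : (Ckd k d).Nonempty := by
  rcases Nat.even_or_odd k with ⟨m, hm⟩ | ⟨m, hm⟩
  · refine ⟨List.replicate m 2, ?_, ?_, ?_⟩
    · intro a ha
      exact Or.inl (List.eq_of_mem_replicate ha)
    · rw [List.sum_replicate, smul_eq_mul]
      omega
    · rw [List.count_replicate]
      simp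
  · obtain ⟨j, rfl⟩ : ∃ j, m = j + 1 := ⟨m - 1, by omega⟩
    refine ⟨3 :: List.replicate j 2, ?_, ?_, ?_⟩
    · intro a ha
      rcases List.mem_cons.1 ha with h | h
      · exact Or.inr h
      · exact Or.inl (List.eq_of_mem_replicate h)
    · rw [List.sum_cons, List.sum_replicate, smul_eq_mul]
      omega
    · rw [List.count_cons, List.count_replicate]
      simpa using hd

lemma nil_mem_Ckd (d : ℕ) : [] ∈ Ckd 0 d := ⟨fun a ha => by simp at ha, rfl, by simp⟩

variable {H : Type*} [CommRing H] [Algebra ℚ H] {v : List ℕ → H} {per : H →ₐ[ℚ] ℝ}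

lemma IsLevelModel.indep_Ckd (h : IsLevelModel v per) (k d : ℕ) :
    LinearIndependent ℚ (fun s : Ckd k d => v s) :=
  h.indep.comp (fun s : Ckd k d => (⟨s.1, s.2.1⟩ : {s : List ℕ // IsHoffman s}))
    (fun s t hst => Subtype.ext (congrArg (fun u : {s : List ℕ // IsHoffman s} => u.1) hst))

lemma IsLevelModel.image_eq (h : IsLevelModel v per) (k d : ℕ) :
    (fun s => per (v s)) '' Ckd k d = zetaInc '' Ckd k d :=
  Set.image_congr (fun s hs => h.per_eq s hs.1)

lemma IsLevelModel.indep_iff (h : IsLevelModel v per) (k d : ℕ) :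
    IndepHoffman k d ↔ LinearIndependent ℚ (fun s : Ckd k d => per (v s)) := by
  have : (fun s : Ckd k d => per (v s)) = fun s : Ckd k d => zetaInc s :=
    funext (fun s => h.per_eq s s.2.1)
  rw [this]
  exact Iff.rfl

/-- A relation in `C_{k,d}`. -/
lemma IsLevelModel.exists_rel (h : IsLevelModel v per) {k d : ℕ} (hkd : ¬ IndepHoffman k d) :
    ∃ r ∈ Submodule.span ℚ (v '' Ckd k d), r ≠ 0 ∧ per r = 0 := by
  rw [h.indep_iff] at hkd
  obtain ⟨c, hc, hc0⟩ := MZ.exists_rel per (h.indep_Ckd k d) hkd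
  refine ⟨_, ?_, hc, hc0⟩
  rw [Set.image_eq_range, ← Finsupp.range_linearCombination]
  exact LinearMap.mem_range_self _ c

lemma IsLevelModel.mul_Ckd (h : IsLevelModel v per) {k d k₀ d₀ : ℕ} (hk : k₀ ≤ k) (hd : d₀ ≤ d) :
    ∀ s ∈ Ckd k₀ d₀, ∀ t ∈ Ckd (k - k₀) (d - d₀),
      v s * v t ∈ Submodule.span ℚ (v '' Ckd k d) := by
  intro s hs t ht
  have h1 := h.mul_mem k₀ (k - k₀) d₀ (d - d₀) s t hs ht
  rwa [show k₀ + (k - k₀) = k by omega, show d₀ + (d - d₀) = d by omega] at h1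

/-- If the family `H_{k₀,d₀}` is dependent then the span of `H_{k,d}` has at most
`|C_{k,d}| - |C_{k-k₀,d-d₀}|` dimensions. -/
theorem level_gap (h : IsLevelModel v per) {k d k₀ d₀ : ℕ} (hdep : ¬ IndepHoffman k₀ d₀)
    (hk : k₀ ≤ k) (hd : d₀ ≤ d) :
    finrank ℚ (Submodule.span ℚ (zetaInc '' Ckd k d)) + Nat.card (Ckd (k - k₀) (d - d₀)) ≤
      Nat.card (Ckd k d) := by
  have := h.domain
  obtain ⟨r, hr, hr0, hper⟩ := h.exists_rel hdep
  have h1 := gapWords per (h.mul_Ckd hk hd) (h.indep_Ckd _ _) (h.indep_Ckd _ _)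
    (finite_Ckd _ _) (finite_Ckd _ _) hr hr0 hper
  rwa [h.image_eq] at h1

/-- If the family `H_{k₀,d₀}` is dependent then so are all families `H_{k,d}` with `k ≥ k₀ + 2`
and `d ≥ d₀ + 1`. -/
theorem level_dependent (h : IsLevelModel v per) {k d k₀ d₀ : ℕ} (hdep : ¬ IndepHoffman k₀ d₀)
    (hk : k₀ + 2 ≤ k) (hd : d₀ + 1 ≤ d) : ¬ IndepHoffman k d := by
  have := h.domain
  obtain ⟨r, hr, hr0, hper⟩ := h.exists_rel hdep
  rw [h.indep_iff]
  exact dependent_of_relation per (h.mul_Ckd (by omega) (by omega)) (h.indep_Ckd _ _)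
    (h.indep_Ckd _ _) (finite_Ckd _ _) (nonempty_Ckd_one (by omega) (by omega)) (finite_Ckd _ _)
    hr hr0 hper

theorem level_tfae (h : IsLevelModel v per) :
    List.TFAE [
      ∀ k : ℕ, IndepHoffman k k,
      ∀ d N : ℕ, ∃ k : ℕ, N ≤ k ∧ IndepHoffman k d,
      ∀ k₀ d₀ : ℕ, ∃ k d : ℕ, k₀ ≤ k ∧ d₀ ≤ d ∧ Nat.card (Ckd k d) <
        finrank ℚ (Submodule.span ℚ (zetaInc '' Ckd k d)) +
          Nat.card (Ckd (k - k₀) (d - d₀))] := by
  have key : ∀ k d : ℕ, IndepHoffman k k → IndepHoffman k d := fun k d hkk =>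
    hkk.comp (fun s : Ckd k d => (⟨s.1, Ckd_subset s.2⟩ : Ckd k k))
      (fun s t hst => Subtype.ext (congrArg (fun u : Ckd k k => u.1) hst))
  tfae_have 1 → 2 := fun h1 d N => ⟨N, le_rfl, key N d (h1 N)⟩
  tfae_have 2 → 1 := by
    intro h2 k₀
    by_contra hc
    obtain ⟨k, hk, hk'⟩ := h2 (k₀ + 1) (k₀ + 2)
    exact level_dependent h hc hk le_rfl hk'
  tfae_have 1 → 3 := by
    intro h1 k₀ d₀
    refine ⟨k₀, d₀, le_rfl, le_rfl, ?_⟩
    have := (finite_Ckd k₀ d₀).to_subtype
    have := Fintype.ofFinite (Ckd k₀ d₀)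
    have e1 : finrank ℚ (Submodule.span ℚ (zetaInc '' Ckd k₀ d₀)) = Nat.card (Ckd k₀ d₀) := by
      rw [Set.image_eq_range, finrank_span_eq_card (key k₀ d₀ (h1 k₀)), Nat.card_eq_fintype_card]
    rw [e1, Nat.sub_self, Nat.sub_self]
    have : Finite (Ckd 0 0) := (finite_Ckd 0 0).to_subtype
    have : Nonempty (Ckd 0 0) := ⟨⟨[], nil_mem_Ckd 0⟩⟩
    have h2 : 0 < Nat.card (Ckd 0 0) := Nat.card_pos
    omega
  tfae_have 3 → 1 := by
    intro h3 k₀
    by_contra hc
    obtain ⟨k, d, hk, hd, h4⟩ := h3 k₀ k₀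
    exact absurd (level_gap h hc hk hd) (by omega)
  tfae_finish

end Pool.Agent.TH133.MZ
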