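import Pool.Agent.TH133.MZ.Zagier
import Mathlib.Analysis.SpecialFunctions.Trigonometric.Basic

/-!
# The period conjecture for mixed Tate motives over the integers
-/

open Module

namespace Pool.Agent.TH133.MZ

/-- The span of the multiple zeta values of weight at most `N`. -/
noncomputable def Zle (N : ℕ) : Submodule ℚ ℝ := Submodule.span ℚ {x : ℝ | ∃ n ≤ N, x ∈ mzvs n}

/-- The sum `d_0 + ... + d_N`. -/
def dsum (d : ℕ → ℕ) (N : ℕ) : ℕ := ∑ n ∈ Finset.range (N + 1), d n

/-- The commutative `ℚ`-algebra `P` with the subspaces `gr n`, the element `L` and the homomorphism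
`per` has the properties of the ring of motivic periods of the mixed Tate motives over `ℤ`, the
motivic multiple zeta values of weight `n`, the Lefschetz period and the period homomorphism. -/
structure IsPeriodModel {P : Type*} [CommRing P] [Algebra ℚ P] (gr : ℕ → Submodule ℚ P) (L : P)
    (per : P →ₐ[ℚ] ℂ) (d : ℕ → ℕ) : Prop where
  domain : IsDomain P
  finite : ∀ n, Module.Finite ℚ (gr n)
  finrank : ∀ n, finrank ℚ (gr n) = d n
  mul_mem : ∀ (m n : ℕ) (a b : P), a ∈ gr m → b ∈ gr n → a * b ∈ gr (m + n)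
  direct : ∀ (N : ℕ) (z : ℕ → P), (∀ j, z j ∈ gr j) → ∑ j ∈ Finset.range N, z j = 0 →
    ∀ j < N, z j = 0
  map_gr : ∀ n, per '' (gr n : Set P) = Complex.ofReal '' (Zw n : Set ℝ)
  isUnit : IsUnit L
  per_L : per L = 2 * (Real.pi : ℂ) * Complex.I
  spans : ∀ p : P, ∃ k N : ℕ, ∃ y z : ℕ → P, (∀ j, y j ∈ gr j) ∧ (∀ j, z j ∈ gr j) ∧
    L ^ k * p = ∑ j ∈ Finset.range N, y j + L * ∑ j ∈ Finset.range N, z j

section Sums

variable {P : Type*} [CommRing P] [Algebra ℚ P] {gr : ℕ → Submodule ℚ P}

/-- The sum of the subspaces `gr j` with `j < N`. -/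
def VV (gr : ℕ → Submodule ℚ P) : ℕ → Submodule ℚ P
  | 0 => ⊥
  | N + 1 => VV gr N ⊔ gr N

lemma mem_VV {N : ℕ} {x : P} :
    x ∈ VV gr N ↔ ∃ z : ℕ → P, (∀ j, z j ∈ gr j) ∧ x = ∑ j ∈ Finset.range N, z j := by
  induction N generalizing x with
  | zero =>
    rw [VV, Submodule.mem_bot]
    constructor
    · rintro rfl
      exact ⟨fun _ => 0, fun j => (gr j).zero_mem, by simp⟩
    · rintro ⟨z, -, rfl⟩
      simp
  | succ N ih =>
    rw [VV, Submodule.mem_sup]
    constructor
    · rintro ⟨y, hy, w, hw, rfl⟩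
      obtain ⟨z, hz, rfl⟩ := ih.1 hy
      refine ⟨Function.update z N w, fun j => ?_, ?_⟩
      · rcases eq_or_ne j N with rfl | hj
        · rwa [Function.update_self]
        · rw [Function.update_of_ne hj]
          exact hz j
      · rw [Finset.sum_range_succ, Function.update_self]
        congr 1
        apply Finset.sum_congr rfl
        intro j hj
        rw [Function.update_of_ne (Finset.mem_range.1 hj).ne]
    · rintro ⟨z, hz, rfl⟩
      exact ⟨_, ih.2 ⟨z, hz, rfl⟩, z N, hz N, (Finset.sum_range_succ _ _).symm⟩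

lemma gr_le_VV {k N : ℕ} (h : k < N) : gr k ≤ VV gr N := by
  induction N with
  | zero => omega
  | succ N ih =>
    rw [VV]
    rcases Nat.lt_succ_iff_lt_or_eq.1 h with h1 | rfl
    · exact (ih h1).trans le_sup_left
    · exact le_sup_right

lemma finite_VV (hf : ∀ n, Module.Finite ℚ (gr n)) (N : ℕ) : FiniteDimensional ℚ (VV gr N) := by
  induction N with
  | zero => rw [VV]; infer_instance
  | succ N ih =>
    rw [VV]
    haveI := hf N
    infer_instance

lemma VV_mul (hmul : ∀ (m n : ℕ) (a b : P), a ∈ gr m → b ∈ gr n → a * b ∈ gr (m + n))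
    {w m : ℕ} {x y : P} (hx : x ∈ VV gr (w + 1)) (hy : y ∈ VV gr (m + 1)) :
    x * y ∈ VV gr (w + m + 1) := by
  obtain ⟨z, hz, rfl⟩ := mem_VV.1 hx
  obtain ⟨t, ht, rfl⟩ := mem_VV.1 hy
  rw [Finset.sum_mul_sum]
  refine Submodule.sum_mem _ fun i hi => Submodule.sum_mem _ fun j hj => ?_
  rw [Finset.mem_range] at hi hj
  exact gr_le_VV (by omega) (hmul i j _ _ (hz i) (ht j))

end Sums

variable {P : Type*} [CommRing P] [Algebra ℚ P] {gr : ℕ → Submodule ℚ P} {L : P}
  {per : P →ₐ[ℚ] ℂ} {d : ℕ → ℕ}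

lemma IsPeriodModel.finrank_VV (h : IsPeriodModel gr L per d) (N : ℕ) :
    Module.finrank ℚ (VV gr N) = ∑ n ∈ Finset.range N, d n := by
  induction N with
  | zero => rw [VV]; simp
  | succ N ih =>
    haveI := finite_VV h.finite N
    haveI := h.finite N
    have h1 := Submodule.finrank_sup_add_finrank_inf_eq (VV gr N) (gr N)
    have h2 : VV gr N ⊓ gr N = ⊥ := by
      rw [Submodule.eq_bot_iff]
      rintro x ⟨hx, hx'⟩
      obtain ⟨z, hz, hxz⟩ := mem_VV.1 hx
      have h3 := h.direct (N + 1) (Function.update z N (-x)) (fun j => by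
        rcases eq_or_ne j N with rfl | hj
        · rw [Function.update_self]
          exact (gr j).neg_mem hx'
        · rw [Function.update_of_ne hj]
          exact hz j) (by
        rw [Finset.sum_range_succ, Function.update_self]
        have : ∑ j ∈ Finset.range N, Function.update z N (-x) j = x := by
          rw [hxz]
          apply Finset.sum_congr rfl
          intro j hj
          rw [Function.update_of_ne (Finset.mem_range.1 hj).ne]
        rw [this, add_neg_cancel]) N (Nat.lt_succ_self N)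
      rw [Function.update_self, neg_eq_zero] at h3
      exact h3
    rw [h2, finrank_bot, add_zero, ih, h.finrank] at h1
    rw [VV, h1, Finset.sum_range_succ]

/-- The inclusion of the real numbers in the complex numbers. -/
noncomputable def incl : ℝ →ₗ[ℚ] ℂ := Complex.ofRealAm.toLinearMap.restrictScalars ℚ

lemma incl_apply (x : ℝ) : incl x = (x : ℂ) := rfl

lemma IsPeriodModel.map_gr' (h : IsPeriodModel gr L per d) (n : ℕ) :
    (gr n).map per.toLinearMap = (Zw n).map incl := by
  apply SetLike.coe_injective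
  rw [Submodule.map_coe, Submodule.map_coe]
  exact h.map_gr n

lemma IsPeriodModel.map_VV (h : IsPeriodModel gr L per d) (N : ℕ) :
    (VV gr (N + 1)).map per.toLinearMap = (Zle N).map incl := by
  induction N with
  | zero =>
    rw [VV, VV, bot_sup_eq, h.map_gr', Zle, Zw]
    congr 3
    ext x
    simp
  | succ N ih =>
    rw [VV, Submodule.map_sup, ih, h.map_gr', ← Submodule.map_sup, Zle, Zle, Zw,
      ← Submodule.span_union]
    congr 2
    ext x
    simp only [Set.mem_union, Set.mem_ofPred_eq]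
    constructor
    · rintro (⟨n, hn, hx⟩ | hx)
      · exact ⟨n, by omega, hx⟩
      · exact ⟨N + 1, le_rfl, hx⟩
    · rintro ⟨n, hn, hx⟩
      rcases Nat.lt_or_ge N n with h1 | h1
      · right
        obtain rfl : n = N + 1 := by omega
        exact hx
      · exact Or.inl ⟨n, h1, hx⟩

lemma IsPeriodModel.finrank_map (h : IsPeriodModel gr L per d) (N : ℕ) :
    Module.finrank ℚ ((VV gr (N + 1)).map per.toLinearMap) = Module.finrank ℚ (Zle N) := by
  rw [h.map_VV]
  have hinj : Function.Injective incl := fun x y hxy => Complex.ofReal_injective hxy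
  exact ((Zle N).equivMapOfInjective incl hinj).symm.finrank_eq

/-- The values of the period homomorphism on sums of the `gr j` are real. -/
lemma IsPeriodModel.real (h : IsPeriodModel gr L per d) {N : ℕ} {x : P} (hx : x ∈ VV gr N) :
    ∃ r : ℝ, per x = r := by
  have h1 : x ∈ VV gr (N + 1) := by
    rw [VV]
    exact Submodule.mem_sup_left hx
  have h2 : per.toLinearMap x ∈ (VV gr (N + 1)).map per.toLinearMap :=
    Submodule.mem_map_of_mem h1
  rw [h.map_VV] at h2
  obtain ⟨r, -, hr⟩ := h2
  exact ⟨r, hr.symm⟩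

/-- If `per` is not injective there is a relation between motivic multiple zeta values. -/
lemma IsPeriodModel.exists_rel (h : IsPeriodModel gr L per d) (hper : ¬ Function.Injective per) :
    ∃ w : ℕ, ∃ r ∈ VV gr (w + 1), r ≠ 0 ∧ per r = 0 := by
  haveI := h.domain
  rw [injective_iff_map_eq_zero] at hper
  push Not at hper
  obtain ⟨p, hp, hp0⟩ := hper
  obtain ⟨k, N, y, z, hy, hz, he⟩ := h.spans p
  set a := ∑ j ∈ Finset.range N, y j with ha
  set b := ∑ j ∈ Finset.range N, z j with hb
  have haV : a ∈ VV gr N := mem_VV.2 ⟨y, hy, ha⟩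
  have hbV : b ∈ VV gr N := mem_VV.2 ⟨z, hz, hb⟩
  have hne : a + L * b ≠ 0 := by
    rw [← he]
    exact mul_ne_zero (pow_ne_zero _ h.isUnit.ne_zero) hp0
  have h0 : per a + per L * per b = 0 := by
    rw [← map_mul, ← map_add, ← he, map_mul, hp, mul_zero]
  obtain ⟨u, hu⟩ := h.real haV
  obtain ⟨v, hv⟩ := h.real hbV
  rw [hu, hv, h.per_L] at h0
  have hre := congrArg Complex.re h0
  have him := congrArg Complex.im h0
  simp at hre him
  have hle : ∀ x ∈ VV gr N, x ∈ VV gr (N + 1) := fun x hx => by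
    rw [VV]
    exact Submodule.mem_sup_left hx
  by_cases ha0 : a = 0
  · refine ⟨N, b, hle b hbV, ?_, ?_⟩
    · rintro h1
      exact hne (by rw [ha0, h1, mul_zero, add_zero])
    · rw [hv]
      have : v = 0 := him
      rw [this]
      simp
  · exact ⟨N, a, hle a haV, ha0, by rw [hu, hre]; simp⟩

lemma dsum_succ_le (hd : IsZagierSeq d) (n : ℕ) (hn : 4 ≤ n) : dsum d (n + 1) ≤ 3 * dsum d n := by
  have h1 : dsum d (n + 1) = dsum d n + d (n + 1) := Finset.sum_range_succ _ _
  have h2 : d n ≤ dsum d n :=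
    Finset.single_le_sum (f := d) (fun _ _ => Nat.zero_le _) (Finset.mem_range.2 (Nat.lt_succ_self n))
  have h3 := d_succ_le hd.zero hd.one hd.two hd.step n hn
  omega

lemma dsum_add_le (hd : IsZagierSeq d) (n w : ℕ) (hn : 4 ≤ n) :
    dsum d (n + w) ≤ 3 ^ w * dsum d n := by
  induction w with
  | zero => simp
  | succ w ih =>
    have h1 := dsum_succ_le hd (n + w) (by omega)
    rw [pow_succ]
    calc dsum d (n + (w + 1)) ≤ 3 * dsum d (n + w) := h1
      _ ≤ 3 * (3 ^ w * dsum d n) := Nat.mul_le_mul_left _ ih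
      _ = 3 ^ w * 3 * dsum d n := by ring

/-- **The period conjecture for mixed Tate motives over `ℤ` as an asymptotic statement.** -/
theorem period_tfae (hd : IsZagierSeq d) (h : IsPeriodModel gr L per d) :
    List.TFAE [
      Function.Injective per,
      ∀ l N : ℕ, ∃ n : ℕ, N ≤ n ∧ ∀ z : ℕ → P, (∀ j, z j ∈ gr j) →
        per (∑ j ∈ Finset.range l, z (n + j)) = 0 → ∑ j ∈ Finset.range l, z (n + j) = 0,
      ∀ ε : ℝ, 0 < ε → ∀ N : ℕ, ∃ n : ℕ, N ≤ n ∧ (1 - ε) * dsum d n ≤ finrank ℚ (Zle n),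
      ∀ w : ℕ, ∃ n : ℕ, w ≤ n ∧ dsum d n < finrank ℚ (Zle n) + dsum d (n - w)] := by
  haveI := h.domain
  have hfr : ∀ N, finrank ℚ (VV gr (N + 1)) = dsum d N := fun N => h.finrank_VV (N + 1)
  tfae_have 1 → 2 := fun h1 l N => ⟨N, le_rfl, fun z _ hz => by
    rw [← map_zero per] at hz
    exact h1 hz⟩
  tfae_have 2 → 1 := by
    intro h2
    by_contra hc
    obtain ⟨w, r, hr, hr0, hper⟩ := h.exists_rel hc
    obtain ⟨n, hn, h3⟩ := h2 (w + 1) 2
    have hdn := d_pos hd.zero hd.one hd.two hd.step hn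
    haveI := h.finite n
    have hy : ∃ y ∈ gr n, y ≠ 0 := by
      by_contra hcon
      push Not at hcon
      have : gr n = ⊥ := (Submodule.eq_bot_iff _).2 hcon
      have h4 := h.finrank n
      rw [this, finrank_bot] at h4
      omega
    obtain ⟨y, hy, hy0⟩ := hy
    obtain ⟨z, hz, rfl⟩ := mem_VV.1 hr
    set t : ℕ → P := fun m => if n ≤ m then y * z (m - n) else 0 with ht
    have ht' : ∀ j, t j ∈ gr j := by
      intro j
      rw [ht]
      dsimp only
      split_ifs with h5
      · have := h.mul_mem n (j - n) y (z (j - n)) hy (hz _)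
        rwa [show n + (j - n) = j by omega] at this
      · exact (gr j).zero_mem
    have hsum : ∑ j ∈ Finset.range (w + 1), t (n + j) = y * ∑ j ∈ Finset.range (w + 1), z j := by
      rw [Finset.mul_sum]
      apply Finset.sum_congr rfl
      intro j _
      rw [ht]
      dsimp only
      rw [if_pos (by omega), Nat.add_sub_cancel_left]
    have h6 := h3 t ht' (by rw [hsum, map_mul, hper, mul_zero])
    rw [hsum] at h6
    exact (mul_ne_zero hy0 hr0) h6
  tfae_have 1 → 3 := by
    intro h1 ε hε N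
    refine ⟨N, le_rfl, ?_⟩
    have h2 : finrank ℚ (Zle N) = dsum d N := by
      rw [← h.finrank_map, ← hfr]
      haveI := finite_VV h.finite (N + 1)
      exact ((VV gr (N + 1)).equivMapOfInjective per.toLinearMap h1).symm.finrank_eq
    rw [h2]
    have : (0 : ℝ) ≤ dsum d N := Nat.cast_nonneg _
    nlinarith
  tfae_have 3 → 4 := by
    intro h3 w
    obtain ⟨n, hn, h4⟩ := h3 ((2 * 3 ^ w)⁻¹) (by positivity) (w + 4)
    refine ⟨n, by omega, ?_⟩
    have h5 := dsum_add_le hd (n - w) w (by omega)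
    rw [show n - w + w = n by omega] at h5
    have h6 : (1 : ℝ) ≤ dsum d (n - w) := by
      have h7 : d 0 ≤ dsum d (n - w) :=
        Finset.single_le_sum (f := d) (fun _ _ => Nat.zero_le _) (Finset.mem_range.2 (by omega))
      rw [hd.zero] at h7
      exact_mod_cast h7
    have h7 : (dsum d n : ℝ) ≤ 3 ^ w * dsum d (n - w) := by exact_mod_cast h5
    have h8 : ((2 : ℝ) * 3 ^ w)⁻¹ * dsum d n ≤ dsum d (n - w) / 2 := by
      rw [inv_mul_le_iff₀ (by positivity)]
      linarith
    have h9 : (dsum d n : ℝ) < finrank ℚ (Zle n) + dsum d (n - w) := by linarith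
    exact_mod_cast h9
  tfae_have 4 → 1 := by
    intro h4
    by_contra hc
    obtain ⟨w, r, hr, hr0, hper⟩ := h.exists_rel hc
    obtain ⟨n, hn, h5⟩ := h4 w
    haveI := finite_VV h.finite (n + 1)
    have h6 := defect per (M := VV gr (n - w + 1)) (V := VV gr (n + 1)) hr0 hper (fun y hy => by
      have := VV_mul h.mul_mem hr hy
      rwa [show w + (n - w) + 1 = n + 1 by omega] at this)
    rw [h.finrank_map, hfr, hfr] at h6
    omega
  tfae_finish

end Pool.Agent.TH133.MZ
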