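import Pool.Agent.TH133.MZ.Words

/-!
# Hoffman's conjecture and sums over bounded ranges of weights
-/

open Module

namespace Pool.Agent.TH133.MZ

/-- The value `ζ(n_1, …, n_r)` of the index `s = (n_1, …, n_r)`, the sum over
`k_1 > … > k_r > 0` of the products of the `k_i ^ (-n_i)`. -/
noncomputable def zetaDec (s : List ℕ) : ℝ :=
  ∑' k : {k : Fin s.length → ℕ // StrictAnti k ∧ ∀ i, 0 < k i},
    ∏ i, ((k.1 i : ℝ) ^ (s.get i))⁻¹

/-- The set of the words in the letters `2`, `3` with weights in the interval `[a, b]`. -/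
def WordsIn (a b : ℕ) : Set (List ℕ) := {s | IsHoffman s ∧ a ≤ s.sum ∧ s.sum ≤ b}

/-- The elements `v s` of the commutative `ℚ`-algebra `H` have the properties of the motivic
multiple zeta values of the words `s` in the letters `2`, `3` (Goncharov, Brown): `H` has no zero
divisors, the `v s` are linearly independent, the product of two of them is a combination of such
elements whose weight is the sum of the weights, and the period homomorphism `per` maps `v s` to
the real number `ζ(s)`. -/
structure IsHoffmanModel {H : Type*} [CommRing H] [Algebra ℚ H] (v : List ℕ → H)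
    (per : H →ₐ[ℚ] ℝ) : Prop where
  domain : IsDomain H
  indep : LinearIndependent ℚ (fun s : {s : List ℕ // IsHoffman s} => v s)
  mul_mem : ∀ s t : List ℕ, IsHoffman s → IsHoffman t →
    v s * v t ∈ Submodule.span ℚ (v '' WordsIn (s.sum + t.sum) (s.sum + t.sum))
  per_eq : ∀ s : List ℕ, IsHoffman s → per (v s) = zetaDec s

lemma finite_WordsIn (a b : ℕ) : (WordsIn a b).Finite :=
  (finite_hoffman_sum b).subset (fun _ hs => ⟨hs.1, hs.2.2⟩)

lemma WordsIn_mono {a b a' b' : ℕ} (ha : a' ≤ a) (hb : b ≤ b') : WordsIn a b ⊆ WordsIn a' b' :=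
  fun _ hs => ⟨hs.1, ha.trans hs.2.1, hs.2.2.trans hb⟩

lemma nonempty_WordsIn {a b k : ℕ} (hk : 2 ≤ k) (ha : a ≤ k) (hb : k ≤ b) :
    (WordsIn a b).Nonempty := by
  rcases Nat.even_or_odd k with ⟨m, hm⟩ | ⟨m, hm⟩
  · have h1 : (List.replicate m 2).sum = k := by
      rw [List.sum_replicate, smul_eq_mul]
      omega
    refine ⟨List.replicate m 2, fun a ha => Or.inl (List.eq_of_mem_replicate ha), ?_, ?_⟩ <;> omega
  · obtain ⟨j, rfl⟩ : ∃ j, m = j + 1 := ⟨m - 1, by omega⟩
    have h1 : (3 :: List.replicate j 2).sum = k := by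
      rw [List.sum_cons, List.sum_replicate, smul_eq_mul]
      omega
    refine ⟨3 :: List.replicate j 2, ?_, ?_, ?_⟩
    · intro a ha
      rcases List.mem_cons.1 ha with h | h
      · exact Or.inr h
      · exact Or.inl (List.eq_of_mem_replicate h)
    · omega
    · omega

lemma card_pos (b : ℕ) : 0 < Nat.card (WordsIn 0 b) := by
  have : Finite (WordsIn 0 b) := (finite_WordsIn 0 b).to_subtype
  have : Nonempty (WordsIn 0 b) := ⟨⟨[], fun a ha => by simp at ha, by simp, by simp⟩⟩
  exact Nat.card_pos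

/-- The number of words of weight at most `n` is at most a constant times the number of words of
weight at most `n - b`. -/
lemma card_le (b : ℕ) : ∃ K : ℕ, 0 < K ∧ ∀ n : ℕ, b ≤ n →
    Nat.card (WordsIn 0 n) ≤ K * Nat.card (WordsIn 0 (n - b)) := by
  have hP := finite_hoffman_length b
  have : Finite {s : List ℕ | IsHoffman s ∧ s.length ≤ b} := hP.to_subtype
  have : Nonempty {s : List ℕ | IsHoffman s ∧ s.length ≤ b} :=
    ⟨⟨[], fun a ha => by simp at ha, by simp⟩⟩
  refine ⟨Nat.card {s : List ℕ | IsHoffman s ∧ s.length ≤ b}, Nat.card_pos, fun n hn => ?_⟩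
  rw [← Nat.card_prod]
  have : Finite (WordsIn 0 (n - b)) := (finite_WordsIn 0 (n - b)).to_subtype
  have ht : ∀ s : List ℕ, IsHoffman s → IsHoffman (s.take b) := fun s hs a ha =>
    hs a (List.mem_of_mem_take ha)
  have hd : ∀ s : List ℕ, IsHoffman s → IsHoffman (s.drop b) := fun s hs a ha =>
    hs a (List.mem_of_mem_drop ha)
  have hsum : ∀ s : List ℕ, IsHoffman s → s.sum ≤ n → (s.drop b).sum ≤ n - b := by
    intro s hs hsn
    have h1 : (s.take b).sum + (s.drop b).sum = s.sum := List.sum_take_add_sum_drop s b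
    rcases Nat.lt_or_ge s.length b with h | h
    · rw [List.drop_eq_nil_of_le h.le]
      simp
    · have h2 := (ht s hs).length_le
      rw [List.length_take, min_eq_left h] at h2
      omega
  refine Nat.card_le_card_of_injective
    (fun s : WordsIn 0 n =>
      ((⟨s.1.take b, ht _ s.2.1, List.length_take_le _ _⟩,
        ⟨s.1.drop b, hd _ s.2.1, Nat.zero_le _, hsum _ s.2.1 s.2.2.2⟩) :
        {s : List ℕ | IsHoffman s ∧ s.length ≤ b} × WordsIn 0 (n - b))) ?_
  intro s t hst
  have h1 : s.1.take b = t.1.take b := congrArg (fun p => p.1.1) hst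
  have h2 : s.1.drop b = t.1.drop b := congrArg (fun p => p.2.1) hst
  apply Subtype.ext
  rw [← List.take_append_drop b s.1, ← List.take_append_drop b t.1, h1, h2]

variable {H : Type*} [CommRing H] [Algebra ℚ H] {v : List ℕ → H} {per : H →ₐ[ℚ] ℝ}

lemma IsHoffmanModel.indep_In (h : IsHoffmanModel v per) (a b : ℕ) :
    LinearIndependent ℚ (fun s : WordsIn a b => v s) :=
  h.indep.comp (fun s : WordsIn a b => (⟨s.1, s.2.1⟩ : {s : List ℕ // IsHoffman s}))
    (fun s t hst => Subtype.ext (congrArg (fun u : {s : List ℕ // IsHoffman s} => u.1) hst))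

lemma IsHoffmanModel.image_eq (h : IsHoffmanModel v per) (a b : ℕ) :
    (fun s => per (v s)) '' WordsIn a b = zetaDec '' WordsIn a b :=
  Set.image_congr (fun s hs => h.per_eq s hs.1)

lemma IsHoffmanModel.indep_iff (h : IsHoffmanModel v per) (a b : ℕ) :
    LinearIndependent ℚ (fun s : WordsIn a b => zetaDec s) ↔
      LinearIndependent ℚ (fun s : WordsIn a b => per (v s)) := by
  have : (fun s : WordsIn a b => per (v s)) = fun s : WordsIn a b => zetaDec s :=
    funext (fun s => h.per_eq s s.2.1)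
  rw [this]

/-- If the values are dependent there is a relation between finitely many of them. -/
lemma IsHoffmanModel.exists_rel (h : IsHoffmanModel v per)
    (hdep : ¬ LinearIndependent ℚ (fun s : {s : List ℕ // IsHoffman s} => zetaDec s)) :
    ∃ b : ℕ, ∃ r ∈ Submodule.span ℚ (v '' WordsIn 0 b), r ≠ 0 ∧ per r = 0 := by
  have e1 : (fun s : {s : List ℕ // IsHoffman s} => zetaDec s) =
      fun s : {s : List ℕ // IsHoffman s} => per (v s.1) :=
    funext (fun s => (h.per_eq s.1 s.2).symm)
  rw [e1] at hdep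
  obtain ⟨c, hc, hc0⟩ := MZ.exists_rel per h.indep hdep
  refine ⟨c.support.sup (fun s => s.1.sum), _, ?_, hc, hc0⟩
  rw [Finsupp.linearCombination_apply, Finsupp.sum]
  apply Submodule.sum_mem
  intro s hs
  apply Submodule.smul_mem
  apply Submodule.subset_span
  exact ⟨s.1, ⟨s.2, Nat.zero_le _, Finset.le_sup (f := fun s : {s : List ℕ // IsHoffman s} =>
    s.1.sum) hs⟩, rfl⟩

lemma IsHoffmanModel.mul_In (h : IsHoffmanModel v per) {a b a' b' : ℕ} :
    ∀ s ∈ WordsIn a b, ∀ t ∈ WordsIn a' b',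
      v s * v t ∈ Submodule.span ℚ (v '' WordsIn (a + a') (b + b')) := by
  intro s hs t ht
  refine Submodule.span_mono (Set.image_mono ?_) (h.mul_mem s t hs.1 ht.1)
  have h1 := hs.2
  have h2 := ht.2
  exact WordsIn_mono (by omega) (by omega)

theorem window_tfae (h : IsHoffmanModel v per) :
    List.TFAE [
      LinearIndependent ℚ (fun s : {s : List ℕ // IsHoffman s} => zetaDec s),
      ∀ l N : ℕ, ∃ n : ℕ, N ≤ n ∧ LinearIndependent ℚ (fun s : WordsIn n (n + l) => zetaDec s),
      ∀ ε : ℝ, 0 < ε → ∀ N : ℕ, ∃ n : ℕ, N ≤ n ∧ (1 - ε) * Nat.card (WordsIn 0 n) ≤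
        finrank ℚ (Submodule.span ℚ (zetaDec '' WordsIn 0 n))] := by
  have hdom := h.domain
  have key : LinearIndependent ℚ (fun s : {s : List ℕ // IsHoffman s} => zetaDec s) →
      ∀ a b : ℕ, LinearIndependent ℚ (fun s : WordsIn a b => zetaDec s) := fun h1 a b =>
    h1.comp (fun s : WordsIn a b => (⟨s.1, s.2.1⟩ : {s : List ℕ // IsHoffman s}))
      (fun s t hst => Subtype.ext (congrArg (fun u : {s : List ℕ // IsHoffman s} => u.1) hst))
  tfae_have 1 → 2 := fun h1 l N => ⟨N, le_rfl, key h1 _ _⟩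
  tfae_have 2 → 1 := by
    intro h2
    by_contra hc
    obtain ⟨b, r, hr, hr0, hper⟩ := h.exists_rel hc
    obtain ⟨n, hn, hn'⟩ := h2 b 2
    rw [h.indep_iff] at hn'
    refine dependent_of_relation per (S := WordsIn 0 b) (T := WordsIn n n) ?_ (h.indep_In _ _)
      (h.indep_In _ _) (finite_WordsIn _ _) (nonempty_WordsIn hn le_rfl le_rfl)
      (finite_WordsIn _ _) hr hr0 hper hn'
    intro s hs t ht
    have := h.mul_In s hs t ht
    rwa [Nat.zero_add, Nat.add_comm b n] at this
  tfae_have 1 → 3 := by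
    intro h1 ε hε N
    refine ⟨N, le_rfl, ?_⟩
    have := (finite_WordsIn 0 N).to_subtype
    have := Fintype.ofFinite (WordsIn 0 N)
    have e1 : finrank ℚ (Submodule.span ℚ (zetaDec '' WordsIn 0 N)) = Nat.card (WordsIn 0 N) := by
      rw [Set.image_eq_range, finrank_span_eq_card (key h1 0 N), Nat.card_eq_fintype_card]
    rw [e1]
    have : (0 : ℝ) ≤ Nat.card (WordsIn 0 N) := Nat.cast_nonneg _
    nlinarith
  tfae_have 3 → 1 := by
    intro h3
    by_contra hc
    obtain ⟨b, r, hr, hr0, hper⟩ := h.exists_rel hc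
    obtain ⟨K, hK, hK'⟩ := card_le b
    obtain ⟨n, hn, hn'⟩ := h3 ((2 * K : ℝ)⁻¹) (by positivity) b
    have h4 := gapWords per (S := WordsIn 0 b) (T := WordsIn 0 (n - b)) (U := WordsIn 0 n)
      (fun s hs t ht => by
        have := h.mul_In s hs t ht
        rwa [Nat.zero_add, show b + (n - b) = n by omega] at this)
      (h.indep_In _ _) (h.indep_In _ _) (finite_WordsIn _ _) (finite_WordsIn _ _) hr hr0 hper
    rw [h.image_eq] at h4
    have h5 : (finrank ℚ (Submodule.span ℚ (zetaDec '' WordsIn 0 n)) : ℝ) +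
        Nat.card (WordsIn 0 (n - b)) ≤ Nat.card (WordsIn 0 n) := by exact_mod_cast h4
    have h6 : (Nat.card (WordsIn 0 n) : ℝ) ≤ K * Nat.card (WordsIn 0 (n - b)) := by
      exact_mod_cast hK' n hn
    have h7 : (1 : ℝ) ≤ Nat.card (WordsIn 0 (n - b)) := by exact_mod_cast card_pos (n - b)
    have hK0 : (0 : ℝ) < K := by exact_mod_cast hK
    have h8 : (2 * K : ℝ)⁻¹ * Nat.card (WordsIn 0 n) ≤ Nat.card (WordsIn 0 (n - b)) / 2 := by
      rw [inv_mul_le_iff₀ (by positivity)]
      nlinarith
    linarith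
  tfae_finish

end Pool.Agent.TH133.MZ
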