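import Pool.Agent.TH133.MZ.Gap
import Mathlib.Topology.Algebra.InfiniteSum.Real
import Mathlib.LinearAlgebra.Dimension.Finrank
import Mathlib.Algebra.Algebra.Operations

/-!
# Words in the letters two and three
-/

open Module

namespace Pool.Agent.TH133.MZ

/-- All entries of the index `s` are `2` or `3`. -/
def IsHoffman (s : List ℕ) : Prop := ∀ a ∈ s, a = 2 ∨ a = 3

lemma IsHoffman.cons {a : ℕ} {s : List ℕ} (h : IsHoffman (a :: s)) : (a = 2 ∨ a = 3) ∧ IsHoffman s :=
  ⟨h a (by simp), fun b hb => h b (by simp [hb])⟩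

lemma IsHoffman.length_le : ∀ {s : List ℕ}, IsHoffman s → 2 * s.length ≤ s.sum
  | [], _ => by simp
  | a :: s, h => by
    have h1 := IsHoffman.length_le h.cons.2
    have h2 := h.cons.1
    simp only [List.length_cons, List.sum_cons]
    omega

lemma finite_hoffman_length (n : ℕ) : {s : List ℕ | IsHoffman s ∧ s.length ≤ n}.Finite := by
  induction n with
  | zero =>
    apply (Set.finite_singleton ([] : List ℕ)).subset
    rintro s ⟨-, hs⟩
    simpa using hs
  | succ n ih =>
    have h1 : ({s : List ℕ | IsHoffman s ∧ s.length ≤ n + 1}) ⊆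
        {[]} ∪ Set.image2 (fun (a : ℕ) (s : List ℕ) => a :: s) ({2, 3} : Set ℕ)
          {s : List ℕ | IsHoffman s ∧ s.length ≤ n} := by
      rintro s ⟨hs, hl⟩
      cases s with
      | nil => simp
      | cons a s =>
        right
        refine ⟨a, hs.cons.1, s, ⟨hs.cons.2, ?_⟩, rfl⟩
        simpa using hl
    exact ((Set.finite_singleton _).union
      (Set.Finite.image2 _ (by simp) ih)).subset h1

lemma finite_hoffman_sum (n : ℕ) : {s : List ℕ | IsHoffman s ∧ s.sum ≤ n}.Finite := by
  apply (finite_hoffman_length n).subset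
  rintro s ⟨hs, hn⟩
  have h1 := hs.length_le
  exact ⟨hs, by change s.sum ≤ n at hn; omega⟩

section Gap

variable {H : Type*} [CommRing H] [IsDomain H] [Algebra ℚ H] {L : Type*} [CommRing L] [Algebra ℚ L]

omit [IsDomain H] in
/-- A relation between the images of independent elements. -/
theorem exists_rel {ι : Type*} (per : H →ₐ[ℚ] L) {v : ι → H} (hv : LinearIndependent ℚ v)
    (h : ¬ LinearIndependent ℚ (fun i => per (v i))) :
    ∃ c : ι →₀ ℚ, Finsupp.linearCombination ℚ v c ≠ 0 ∧
      per (Finsupp.linearCombination ℚ v c) = 0 := by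
  rw [linearIndependent_iff] at h
  push Not at h
  obtain ⟨c, hc, hc0⟩ := h
  refine ⟨c, fun h0 => hc0 (linearIndependent_iff.1 hv c h0), ?_⟩
  rw [Finsupp.linearCombination_apply, Finsupp.sum] at hc ⊢
  rw [map_sum]
  rw [← hc]
  apply Finset.sum_congr rfl
  intro i _
  rw [map_smul]

/-- The relations between the values in a finite set `U` of words, if there is a relation in `S`
and products of elements of `S` and `T` are combinations of elements of `U`. -/
theorem gapWords {β : Type*} (per : H →ₐ[ℚ] L) {v : β → H} {S T U : Set β}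
    (hTU : ∀ s ∈ S, ∀ t ∈ T, v s * v t ∈ Submodule.span ℚ (v '' U))
    (hT : LinearIndependent ℚ (fun t : T => v t)) (hU : LinearIndependent ℚ (fun t : U => v t))
    (hTf : T.Finite) (hUf : U.Finite) {r : H} (hrS : r ∈ Submodule.span ℚ (v '' S)) (hr : r ≠ 0)
    (hr0 : per r = 0) :
    finrank ℚ (Submodule.span ℚ ((fun s => per (v s)) '' U)) + Nat.card T ≤ Nat.card U := by
  have := hTf.to_subtype
  have := hUf.to_subtype
  have := Fintype.ofFinite T
  have := Fintype.ofFinite U
  have e1 : finrank ℚ (Submodule.span ℚ (v '' T)) = Nat.card T := by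
    rw [Set.image_eq_range, finrank_span_eq_card hT, Nat.card_eq_fintype_card]
  have e2 : finrank ℚ (Submodule.span ℚ (v '' U)) = Nat.card U := by
    rw [Set.image_eq_range, finrank_span_eq_card hU, Nat.card_eq_fintype_card]
  have : FiniteDimensional ℚ (Submodule.span ℚ (v '' U)) :=
    FiniteDimensional.span_of_finite ℚ (hUf.image v)
  have h1 := defect per (M := Submodule.span ℚ (v '' T)) (V := Submodule.span ℚ (v '' U)) hr hr0
    (fun y hy => by
      have h2 : r * y ∈ Submodule.span ℚ (v '' S) * Submodule.span ℚ (v '' T) :=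
        Submodule.mul_mem_mul hrS hy
      rw [Submodule.span_mul_span] at h2
      refine Submodule.span_le.2 ?_ h2
      rintro _ ⟨_, ⟨s, hs, rfl⟩, _, ⟨t, ht, rfl⟩, rfl⟩
      exact hTU s hs t ht)
  rw [e1, e2, Submodule.map_span, ← Set.image_comp] at h1
  exact h1

/-- The values in `U` are dependent. -/
theorem dependent_of_relation {β : Type*} (per : H →ₐ[ℚ] L) {v : β → H} {S T U : Set β}
    (hTU : ∀ s ∈ S, ∀ t ∈ T, v s * v t ∈ Submodule.span ℚ (v '' U))
    (hT : LinearIndependent ℚ (fun t : T => v t)) (hU : LinearIndependent ℚ (fun t : U => v t))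
    (hTf : T.Finite) (hT0 : T.Nonempty) (hUf : U.Finite) {r : H}
    (hrS : r ∈ Submodule.span ℚ (v '' S)) (hr : r ≠ 0) (hr0 : per r = 0) :
    ¬ LinearIndependent ℚ (fun u : U => per (v u)) := by
  intro hind
  have := hUf.to_subtype
  have := hTf.to_subtype
  have := hT0.to_subtype
  have := Fintype.ofFinite U
  have h1 := gapWords per hTU hT hU hTf hUf hrS hr hr0
  have e1 : finrank ℚ (Submodule.span ℚ ((fun s => per (v s)) '' U)) = Nat.card U := by
    rw [Set.image_eq_range, finrank_span_eq_card hind, Nat.card_eq_fintype_card]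
  rw [e1] at h1
  have h2 : 0 < Nat.card T := Nat.card_pos
  omega

end Gap

end Pool.Agent.TH133.MZ
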