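import Pool.Agent.TH133.MZ.Defs
import Pool.Agent.TH133.MZ.Gap

/-!
# Zagier's dimension conjecture: density and gaps
-/

open Module

namespace Pool.Agent.TH133.MZ

variable {H : Type*} [CommRing H] [Algebra ℚ H] {gr : ℕ → Submodule ℚ H} {per : H →ₐ[ℚ] ℝ}
  {d : ℕ → ℕ}

/-- If the dimension of `𝒵_w` is not `d w`, it is at most `d n - d (n - w)` in all weights. -/
theorem gap (h : IsMotivicModel gr per d) {w : ℕ} (hw : finrank ℚ (Zw w) ≠ d w) (n : ℕ)
    (hn : w ≤ n) : finrank ℚ (Zw n) + d (n - w) ≤ d n := by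
  haveI := h.domain
  haveI := h.finite w
  haveI := h.finite n
  obtain ⟨r, hr, hr0, hper⟩ := exists_relation per (V := gr w)
    (by rw [h.map_gr w, h.finrank w]; exact hw)
  have h1 := defect per (M := gr (n - w)) (V := gr n) hr0 hper (fun y hy => by
    have := h.mul_mem w (n - w) r y hr hy
    rwa [show w + (n - w) = n by omega] at this)
  rwa [h.map_gr n, h.finrank n, h.finrank (n - w)] at h1

theorem zagier_tfae (hd : IsZagierSeq d) (h : IsMotivicModel gr per d) :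
    List.TFAE [
      ∀ n : ℕ, finrank ℚ (Zw n) = d n,
      ∀ N : ℕ, ∃ n : ℕ, N ≤ n ∧ finrank ℚ (Zw n) = d n,
      ∀ ε : ℝ, 0 < ε → ∀ N : ℕ, ∃ n : ℕ, N ≤ n ∧ (1 - ε) * d n ≤ finrank ℚ (Zw n),
      ∀ w : ℕ, ∃ n : ℕ, w ≤ n ∧ d n < finrank ℚ (Zw n) + d (n - w)] := by
  tfae_have 1 → 2 := fun h1 N => ⟨N, le_rfl, h1 N⟩
  tfae_have 2 → 3 := by
    intro h2 ε hε N
    obtain ⟨n, hn, h3⟩ := h2 N
    refine ⟨n, hn, ?_⟩
    rw [h3]
    have : (0 : ℝ) ≤ d n := Nat.cast_nonneg _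
    nlinarith
  tfae_have 3 → 4 := by
    intro h3 w
    obtain ⟨n, hn, h4⟩ := h3 ((2 ^ (w + 1))⁻¹) (by positivity) (w + 4)
    refine ⟨n, by omega, ?_⟩
    have h5 := d_add_le hd.zero hd.one hd.two hd.step (n - w) w (by omega)
    rw [show n - w + w = n by omega] at h5
    have h6 : (1 : ℝ) ≤ d (n - w) := by
      exact_mod_cast d_pos hd.zero hd.one hd.two hd.step (by omega : 2 ≤ n - w)
    have h7 : (d n : ℝ) ≤ 2 ^ w * d (n - w) := by exact_mod_cast h5
    have h8 : ((2 : ℝ) ^ (w + 1))⁻¹ * d n ≤ d (n - w) / 2 := by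
      rw [inv_mul_le_iff₀ (by positivity), pow_succ]
      linarith
    have h9 : (d n : ℝ) < finrank ℚ (Zw n) + d (n - w) := by linarith
    exact_mod_cast h9
  tfae_have 4 → 1 := by
    intro h4
    by_contra hc
    push Not at hc
    obtain ⟨w, hw⟩ := hc
    obtain ⟨n, hn, h5⟩ := h4 w
    exact absurd (gap h hw n hn) (by omega)
  tfae_finish

end Pool.Agent.TH133.MZ
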